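import Mathlib
import Pool.Agent.Q24.PileDefs
import Pool.Agent.Q24.PileEmbedDefs
import Pool.Agent.Q24.PileEmbed

/-!
# Projective profinite piles embed in free profinite products

No section of the orbit map is assumed, and one factor besides the free one is enough.
-/

set_option autoImplicit false

namespace Pool.Agent.Results.MP_34922e_al.OneFactor

open Q24.Pile Q24.PileEmbed

universe u

/-- Let `(G, T)` be a projective pile. There are a profinite group `H₁`, a free profinite group `F`
(on a profinite space `Z`), the free profinite product `H` of `H₁` and `F`, and an embedding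
`e : G → H` (a continuous injective homomorphism) such that every stabilizer is the intersection
of `G` with a conjugate of `H₁`: for every `t ∈ T` there is `h ∈ H` such that for all `g ∈ G`,
`g ∈ G_t` if and only if `e g ∈ h⁻¹ H₁ h`. -/
theorem result {G T : Type u} [Group G] [TopologicalSpace G] [TopologicalSpace T]
    (act : T → G → T) (hproj : IsProjective act) :
    ∃ (H₁ F H Z : Type u) (_ : Group H₁) (_ : Group F) (_ : Group H) (_ : TopologicalSpace H₁)
      (_ : TopologicalSpace F) (_ : TopologicalSpace H) (_ : TopologicalSpace Z)
      (ι : Z → F) (i₁ : H₁ →* H) (i₂ : F →* H) (e : G →* H),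
      IsFreeOn Z F ι ∧ IsFreeProduct i₁ i₂ ∧ Continuous e ∧ Function.Injective e ∧
      ∀ t : T, ∃ h : H, ∀ g : G, g ∈ stab act t ↔ ∃ a : H₁, e g = h⁻¹ * i₁ a * h :=
  main hproj

end Pool.Agent.Results.MP_34922e_al.OneFactor
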